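import Pool.Agent.U108.DP.N1
import Pool.Agent.U108.ML.F
import Pool.Agent.U108.ML.H

set_option autoImplicit false

/-! The energy of the values of polynomials at integers with restricted digits and of multilinear values, for theorems with
a power saving. -/

namespace Pool.Agent.U108.PS
open Finset
open Pool.Agent.TH212.EH (En)
open Pool.Agent.U108.DP (Bo val poly_energy)

lemma ev_rpow (θ : ℝ) (hθ : 0 < θ) (K : ℝ) (hK : 0 ≤ K) (E : ℕ) : ∃ P₀ : ℕ, ∀ P : ℕ, P₀ ≤ P →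
    K * (1 + Real.log P) ^ E ≤ (P : ℝ) ^ θ := by
  obtain ⟨ε, hε⟩ : ∃ ε : ℝ, ε = θ / (2 * (E + 1)) := ⟨_, rfl⟩
  have hE0 : (0 : ℝ) ≤ E := Nat.cast_nonneg _
  have hε0 : 0 < ε := by rw [hε]; positivity
  have hεE : ε * E ≤ θ / 2 := by
    rw [hε, div_mul_eq_mul_div, div_le_div_iff₀ (by positivity) (by norm_num)]
    nlinarith
  have hten : Filter.Tendsto (fun n : ℕ => (n : ℝ) ^ (θ / 2)) Filter.atTop Filter.atTop :=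
    (tendsto_rpow_atTop (by linarith : 0 < θ / 2)).comp tendsto_natCast_atTop_atTop
  obtain ⟨P₁, hP₁⟩ := Filter.eventually_atTop.1 (hten.eventually_ge_atTop (K * (1 + 1 / ε) ^ E))
  refine ⟨P₁ + 1, fun P hP => ?_⟩
  have hP0 : (1 : ℝ) ≤ P := by exact_mod_cast (by omega : 1 ≤ P)
  have hPp : (0 : ℝ) < P := by linarith
  have h1 : Real.log P ≤ (P : ℝ) ^ ε / ε := Real.log_le_rpow_div hPp.le hε0
  have h2 : 1 ≤ (P : ℝ) ^ ε := Real.one_le_rpow hP0 hε0.le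
  have h3 : 1 + Real.log P ≤ (1 + 1 / ε) * (P : ℝ) ^ ε := by
    have e : (1 + 1 / ε) * (P : ℝ) ^ ε = (P : ℝ) ^ ε + (P : ℝ) ^ ε / ε := by ring
    rw [e]
    linarith
  have hl0 : 0 ≤ 1 + Real.log P := by have := Real.log_nonneg hP0; linarith
  have h4 := hP₁ P (by omega)
  calc K * (1 + Real.log P) ^ E ≤ K * ((1 + 1 / ε) * (P : ℝ) ^ ε) ^ E := mul_le_mul_of_nonneg_left (pow_le_pow_left₀ hl0 h3 E) hK
    _ = K * (1 + 1 / ε) ^ E * (P : ℝ) ^ (ε * E) := by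
        rw [mul_pow, ← Real.rpow_natCast ((P : ℝ) ^ ε) E, ← Real.rpow_mul hPp.le]
        ring
    _ ≤ (P : ℝ) ^ (θ / 2) * (P : ℝ) ^ (θ / 2) := by
        apply mul_le_mul h4 (Real.rpow_le_rpow_of_exponent_le hP0 hεE) (by positivity) (by positivity)
    _ = (P : ℝ) ^ θ := by rw [← Real.rpow_add hPp]; congr 1; ring

lemma en_scale (G Z θ₀ a Q : ℝ) (N : ℕ) (hQ : 1 ≤ Q) (hG : 0 ≤ G) (hZ : 0 ≤ Z) (hθ : 0 ≤ θ₀) (hQN : Q ≤ N)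
    (hN : (N : ℝ) ≤ Q ^ (1 + θ₀ / 4)) (ha : a ≤ Q ^ (θ₀ / 2)) (hE : G * Q ≤ a * Z) : G * N ≤ (N : ℝ) ^ θ₀ * Z := by
  have hQ0 : 0 < Q := by linarith
  have e : Q ^ (1 + θ₀ / 4) = Q * Q ^ (θ₀ / 4) := by rw [Real.rpow_add hQ0, Real.rpow_one]
  have h0 : 0 ≤ Q ^ (θ₀ / 4) := by positivity
  calc G * N ≤ G * (Q * Q ^ (θ₀ / 4)) := by rw [← e]; exact mul_le_mul_of_nonneg_left hN hG
    _ = (G * Q) * Q ^ (θ₀ / 4) := by ring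
    _ ≤ (Q ^ (θ₀ / 2) * Z) * Q ^ (θ₀ / 4) := mul_le_mul_of_nonneg_right (hE.trans (mul_le_mul_of_nonneg_right ha hZ)) h0
    _ = Q ^ (3 * θ₀ / 4) * Z := by
        rw [show 3 * θ₀ / 4 = θ₀ / 2 + θ₀ / 4 by ring, Real.rpow_add hQ0]
        ring
    _ ≤ (N : ℝ) ^ θ₀ * Z := by
        apply mul_le_mul_of_nonneg_right _ hZ
        calc Q ^ (3 * θ₀ / 4) ≤ Q ^ θ₀ := Real.rpow_le_rpow_of_exponent_le hQ (by linarith)
          _ ≤ (N : ℝ) ^ θ₀ := Real.rpow_le_rpow hQ0.le hQN hθ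

theorem poly_pw (b r : ℕ) (hb : 2 ≤ b) : ∃ p : ℕ, 1 ≤ p ∧ ∀ θ₀ : ℝ, 0 < θ₀ → ∃ k₀ : ℕ, ∀ k : ℕ, k₀ ≤ k →
    ∀ (J : Type) [Fintype J] [DecidableEq J] (D : J → ℕ → Finset ℕ), (∀ j, ∀ i < k, D j i ⊆ range b ∧ 2 ≤ (D j i).card) →
    ∀ F : MvPolynomial J ℤ, F.totalDegree ≤ r + 2 →
    (∃ m : J →₀ ℕ, m.degree = r + 2 ∧ F.coeff m ≠ 0 ∧ |((F.coeff m : ℤ) : ℝ)| ≤ (b : ℝ) ^ (θ₀ / 4 * k)) →
    ∀ N : ℕ, b ^ ((r + 2) * k) ≤ N → (N : ℝ) ≤ (b : ℝ) ^ ((1 + θ₀ / 4) * ((r + 2 : ℕ) * k)) →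
    (En p (fun n : {n : J → ℕ // n ∈ Bo b k D} => val F (n : J → ℕ)) : ℝ) * N ≤
      (N : ℝ) ^ θ₀ * (Fintype.card {n : J → ℕ // n ∈ Bo b k D} : ℝ) ^ (2 * p) := by
  obtain ⟨p, K, hp, hK, h1⟩ := poly_energy b r hb
  refine ⟨p, hp, fun θ₀ hθ₀ => ?_⟩
  have hb1 : (1 : ℝ) < b := by exact_mod_cast (by omega : 1 < b)
  have hb0 : (0 : ℝ) < b := by linarith
  have hten : Filter.Tendsto (fun n : ℕ => ((b : ℝ) ^ (θ₀ / 4)) ^ n) Filter.atTop Filter.atTop :=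
    tendsto_pow_atTop_atTop_of_one_lt (Real.one_lt_rpow hb1 (by linarith))
  obtain ⟨k₁, hk₁⟩ := Filter.eventually_atTop.1 (hten.eventually_ge_atTop K)
  refine ⟨k₁, fun k hk J _ _ D hD F hF hm N hN1 hN2 => ?_⟩
  obtain ⟨m, hm, hcm, hcB⟩ := hm
  have h2 := h1 J k D hD F hF m hm hcm
  have hKk : K ≤ (b : ℝ) ^ (θ₀ / 4 * k) := by
    refine (hk₁ k hk).trans (le_of_eq ?_)
    rw [← Real.rpow_natCast, ← Real.rpow_mul hb0.le]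
  have e1 : ((b ^ ((r + 2) * k) : ℕ) : ℝ) = (b : ℝ) ^ (((r + 2 : ℕ) : ℝ) * k) := by
    rw [← Nat.cast_mul, Real.rpow_natCast]
    push_cast
    rfl
  have hk0 : (0 : ℝ) ≤ k := Nat.cast_nonneg _
  have hr2 : (2 : ℝ) ≤ ((r + 2 : ℕ) : ℝ) := by exact_mod_cast (by omega : 2 ≤ r + 2)
  apply en_scale _ _ θ₀ (K * |((F.coeff m : ℤ) : ℝ)|) ((b ^ ((r + 2) * k) : ℕ) : ℝ) N
    (by exact_mod_cast Nat.one_le_pow _ _ (by omega)) (Nat.cast_nonneg _) (by positivity) hθ₀.le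
    (by exact_mod_cast hN1)
  · rw [e1, ← Real.rpow_mul hb0.le]
    refine hN2.trans (le_of_eq ?_)
    congr 1
    ring
  · rw [e1, ← Real.rpow_mul hb0.le]
    calc K * |((F.coeff m : ℤ) : ℝ)| ≤ (b : ℝ) ^ (θ₀ / 4 * k) * (b : ℝ) ^ (θ₀ / 4 * k) :=
          mul_le_mul hKk hcB (abs_nonneg _) (by positivity)
      _ = (b : ℝ) ^ (θ₀ / 4 * k + θ₀ / 4 * k) := by rw [Real.rpow_add hb0]
      _ ≤ _ := by
          apply Real.rpow_le_rpow_of_exponent_le hb1.le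
          have : 0 ≤ θ₀ / 2 * k := by positivity
          nlinarith
  · refine le_trans h2 (le_of_eq ?_)
    push_cast
    rfl

theorem ml_pw (h r m : ℕ) (hh : 1 ≤ h) (hm : 2 ≤ m) : ∃ p : ℕ, 1 ≤ p ∧ ∀ θ₀ : ℝ, 0 < θ₀ → ∃ θ : ℝ, 0 < θ ∧ θ ≤ θ₀ / 4 ∧
    ∃ P₀ : ℕ, ∀ P : ℕ, P₀ ≤ P → ∀ N : Fin (r + 2) → ℕ, ∏ k, N k = P → (∀ k, P ≤ N k ^ m) →
    ∀ (I : Fin (r + 2) → Type) [∀ k, Fintype (I k)] (u : ∀ k, I k → ℤ), (∀ k i, |u k i| ≤ N k) →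
    (∀ k, (En h (u k) : ℝ) * N k ≤ (P : ℝ) ^ θ * (Fintype.card (I k) : ℝ) ^ (2 * h)) →
    ∀ c : ℤ, c ≠ 0 → |(c : ℝ)| ≤ (P : ℝ) ^ θ →
    ∀ R : Fin (r + 2) → (∀ k, I k) → ℤ, (∀ k i x, R k (Function.update i k x) = R k i) →
    ∀ M : ℕ, P ≤ M → (M : ℝ) ≤ (P : ℝ) ^ (1 + θ) →
    (En p (fun i : (∀ k, I k) => c * ∏ k, u k (i k) + ∑ k, R k i) : ℝ) * M ≤
      (M : ℝ) ^ θ₀ * (Fintype.card (∀ k, I k) : ℝ) ^ (2 * p) := by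
  classical
  obtain ⟨K, hK, E, h1⟩ := Pool.Agent.U108.ML.energy h r m hh hm
  refine ⟨(2 * h) ^ (r + 2) * m, Nat.mul_pos (by positivity) (by omega), fun θ₀ hθ₀ => ?_⟩
  obtain ⟨a, ha⟩ : ∃ a : ℕ, a = (r + 2) * m := ⟨_, rfl⟩
  obtain ⟨θ, hθ⟩ : ∃ θ : ℝ, θ = θ₀ / (4 * ((a : ℝ) + 1)) := ⟨_, rfl⟩
  have ha0 : (0 : ℝ) ≤ a := Nat.cast_nonneg _
  have hθp : 0 < θ := by rw [hθ]; positivity
  have hθe : θ * ((a : ℝ) + 1) = θ₀ / 4 := by rw [hθ]; field_simp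
  have hθ4 : θ ≤ θ₀ / 4 := by nlinarith
  obtain ⟨P₁, hP₁⟩ := ev_rpow (θ₀ / 4) (by linarith) K hK E
  refine ⟨θ, hθp, hθ4, P₁ + 1, fun P hP N hNP hNm I _ u hu hE c hc hcB R hR M hM1 hM2 => ?_⟩
  have hP1 : (1 : ℝ) ≤ P := by exact_mod_cast (by omega : 1 ≤ P)
  have hP0 : (0 : ℝ) < P := by linarith
  have hN1 : ∀ k, 1 ≤ N k := by
    intro k
    rcases Nat.eq_zero_or_pos (N k) with h0 | h0
    · have : ∏ k, N k = 0 := prod_eq_zero (mem_univ k) h0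
      omega
    · exact h0
  have h4 := h1 N P hN1 hNP hNm I u ((P : ℝ) ^ θ) (by positivity) hu hE c hc R hR
  have h5 := hP₁ P (by omega)
  apply en_scale _ _ θ₀ (K * ((|c| : ℤ) : ℝ) * ((P : ℝ) ^ θ) ^ a * (1 + Real.log P) ^ E) (P : ℝ) M hP1 (Nat.cast_nonneg _)
    (by positivity) hθ₀.le (by exact_mod_cast hM1)
  · exact hM2.trans (Real.rpow_le_rpow_of_exponent_le hP1 (by linarith))
  · have e : ((|c| : ℤ) : ℝ) = |(c : ℝ)| := by push_cast; rfl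
    have hl : 0 ≤ (1 + Real.log P) ^ E := by
      have := Real.log_nonneg hP1
      positivity
    calc K * ((|c| : ℤ) : ℝ) * ((P : ℝ) ^ θ) ^ a * (1 + Real.log P) ^ E
        = (|(c : ℝ)| * ((P : ℝ) ^ θ) ^ a) * (K * (1 + Real.log P) ^ E) := by rw [e]; ring
      _ ≤ ((P : ℝ) ^ θ * ((P : ℝ) ^ θ) ^ a) * (P : ℝ) ^ (θ₀ / 4) := by
          apply mul_le_mul (mul_le_mul_of_nonneg_right hcB (by positivity)) h5 (by positivity) (by positivity)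
      _ = (P : ℝ) ^ (θ * ((a : ℝ) + 1)) * (P : ℝ) ^ (θ₀ / 4) := by
          rw [← pow_succ', ← Real.rpow_natCast, ← Real.rpow_mul hP0.le]
          push_cast
          rfl
      _ = (P : ℝ) ^ (θ₀ / 2) := by
          rw [hθe, ← Real.rpow_add hP0]
          congr 1
          ring
  · rw [ha]
    exact h4

end Pool.Agent.U108.PS
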